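import Mathlib

set_option autoImplicit false

open Finset

namespace Pool.Agent.W738.Mesh

/-- the row at `q` lies in the rational span of the earlier rows of `T` -/
def Dep {r : ℕ} (T : Finset ℕ) (m : ℕ → Fin r → ℤ) (q : ℕ) : Prop :=
  (fun j => (m q j : ℚ)) ∈
    Submodule.span ℚ ((fun (q' : ℕ) (j : Fin r) => (m q' j : ℚ)) '' {q' | q' ∈ T ∧ q' < q})

open Classical in
/-- `v` has few dependent rows in `[N, N')` -/
def Good (A L N N' : ℕ) (v : ℕ → ℤ) : Prop :=
  ∀ r ≤ N', ∀ k : Fin r → ℤ, ∀ T ⊆ range N', ∀ m : ℕ → Fin r → ℤ,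
    (∀ q ∈ T, ∑ j, |m q j| ≤ (L : ℤ)) → (∀ q ∈ T, v q = ∑ j, m q j * k j) →
    A * #{q ∈ T | N ≤ q ∧ Dep T m q} ≤ #T

lemma Dep_congr {r : ℕ} {T : Finset ℕ} {m m' : ℕ → Fin r → ℤ} (h : ∀ q ∈ T, m q = m' q) {q : ℕ}
    (hq : q ∈ T) : Dep T m q ↔ Dep T m' q := by
  unfold Dep
  have h1 : ((fun (q' : ℕ) (j : Fin r) => (m q' j : ℚ)) '' {q' | q' ∈ T ∧ q' < q})
      = ((fun (q' : ℕ) (j : Fin r) => (m' q' j : ℚ)) '' {q' | q' ∈ T ∧ q' < q}) := by
    apply Set.image_congr
    intro a ha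
    rw [h a ha.1]
  rw [h1, h q hq]

/-- the `ℓ¹` ball in `ℤ^r` -/
noncomputable def ball (r L : ℕ) : Finset (Fin r → ℤ) :=
  (Fintype.piFinset fun _ => Finset.Icc (-(L : ℤ)) L).filter (fun m => ∑ j, |m j| ≤ (L : ℤ))

lemma mem_ball {r L : ℕ} {m : Fin r → ℤ} : m ∈ ball r L ↔ ∑ j, |m j| ≤ (L : ℤ) := by
  unfold ball
  rw [Finset.mem_filter, Fintype.mem_piFinset]
  constructor
  · exact fun h => h.2
  · intro h
    refine ⟨fun j => ?_, h⟩
    rw [Finset.mem_Icc, ← abs_le]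
    exact (Finset.single_le_sum (f := fun j => |m j|) (fun i _ => abs_nonneg _) (mem_univ j)).trans h

/-- steps -/
def stp (r : ℕ) : Option (Fin r × Bool) → (Fin r → ℤ)
  | none => 0
  | some (j, true) => Pi.single j 1
  | some (j, false) => Pi.single j (-1)

lemma abs_sub_single {r : ℕ} (m : Fin r → ℤ) (j : Fin r) (e : ℤ) :
    ∑ i, |(m - Pi.single j e : Fin r → ℤ) i| = ∑ i, |m i| - |m j| + |m j - e| := by
  have h1 := Finset.add_sum_erase univ (fun i => |(m - Pi.single j e : Fin r → ℤ) i|) (mem_univ j)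
  have h2 := Finset.add_sum_erase univ (fun i => |m i|) (mem_univ j)
  have h3 : ∑ x ∈ univ.erase j, |(m - Pi.single j e : Fin r → ℤ) x| = ∑ x ∈ univ.erase j, |m x| := by
    apply Finset.sum_congr rfl
    intro x hx
    rw [Pi.sub_apply, Pi.single_eq_of_ne (Finset.ne_of_mem_erase hx), sub_zero]
  simp only [h3] at h1
  rw [← h1, ← h2, Pi.sub_apply, Pi.single_eq_same]
  ring

lemma card_ball (r L : ℕ) : #(ball r L) ≤ (2 * r + 1) ^ L := by
  classical
  induction L with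
  | zero =>
    have : ball r 0 ⊆ {0} := by
      intro m hm
      rw [mem_ball] at hm
      rw [mem_singleton]
      funext j
      have := (Finset.single_le_sum (f := fun j => |m j|) (fun i _ => abs_nonneg _) (mem_univ j)).trans hm
      simpa using abs_nonpos_iff.mp this
    simpa using Finset.card_le_card this
  | succ L ih =>
    have hsub : ball r (L + 1) ⊆ ((ball r L) ×ˢ (univ : Finset (Option (Fin r × Bool)))).image
        (fun p => p.1 + stp r p.2) := by
      intro m hm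
      rw [mem_ball] at hm
      rw [Finset.mem_image]
      by_cases h0 : ∑ j, |m j| ≤ (L : ℤ)
      · exact ⟨(m, none), by simp [mem_ball, h0], by simp [stp]⟩
      · push Not at h0
        have : ∃ j, m j ≠ 0 := by
          by_contra hc
          push Not at hc
          simp [hc] at h0
          omega
        obtain ⟨j, hj⟩ := this
        push_cast at hm
        rcases lt_or_gt_of_ne hj with h | h
        · refine ⟨(m - Pi.single j (-1), some (j, false)), ?_, by simp [stp]⟩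
          simp only [mem_product, mem_univ, and_true, mem_ball]
          rw [abs_sub_single]
          rw [abs_of_neg h, abs_of_nonpos (by omega)]
          linarith
        · refine ⟨(m - Pi.single j 1, some (j, true)), ?_, by simp [stp]⟩
          simp only [mem_product, mem_univ, and_true, mem_ball]
          rw [abs_sub_single]
          rw [abs_of_pos h, abs_of_nonneg (by omega)]
          linarith
    calc #(ball r (L + 1)) ≤ _ := Finset.card_le_card hsub
      _ ≤ #((ball r L) ×ˢ (univ : Finset (Option (Fin r × Bool)))) := Finset.card_image_le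
      _ = #(ball r L) * (2 * r + 1) := by
          rw [Finset.card_product, Finset.card_univ, Fintype.card_option, Fintype.card_prod]
          simp
          left; ring
      _ ≤ (2 * r + 1) ^ L * (2 * r + 1) := Nat.mul_le_mul_right _ ih
      _ = _ := by rw [pow_succ]

lemma determ {r : ℕ} (T : Finset ℕ) (m : ℕ → Fin r → ℤ) (v v' : ℕ → ℤ) (k k' : Fin r → ℤ)
    (hk : ∀ q ∈ T, v q = ∑ j, m q j * k j) (hk' : ∀ q ∈ T, v' q = ∑ j, m q j * k' j) (q : ℕ)
    (hq : q ∈ T) (hd : Dep T m q) (h : ∀ q' < q, v q' = v' q') : v q = v' q := by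
  have key : ∀ x ∈ Submodule.span ℚ ((fun (q' : ℕ) (j : Fin r) => (m q' j : ℚ)) '' {q' | q' ∈ T ∧ q' < q}),
      ∑ j, x j * (k j : ℚ) = ∑ j, x j * (k' j : ℚ) := by
    intro x hx
    induction hx using Submodule.span_induction with
    | mem x hx =>
      obtain ⟨q', ⟨h1, h2⟩, rfl⟩ := hx
      have h3 := h q' h2
      rw [hk q' h1, hk' q' h1] at h3
      simp only
      exact_mod_cast h3
    | zero => simp
    | add x y _ _ hx hy => simp only [Pi.add_apply, add_mul, sum_add_distrib, hx, hy]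
    | smul a x _ hx => simp only [Pi.smul_apply, smul_eq_mul, mul_assoc, ← mul_sum, hx]
  have := key _ hd
  rw [hk q hq, hk' q hq]
  exact_mod_cast this

/-- values from choices on `[N, N')` -/
def vv (N N' Y : ℕ) (v₀ X : ℕ → ℤ) (ω : ↥(Finset.Ico N N') → Fin Y) (q : ℕ) : ℤ :=
  if h : q ∈ Finset.Ico N N' then X q + (((ω ⟨q, h⟩ : Fin Y) : ℕ) : ℤ) else v₀ q

open Classical in
lemma count_cons {r : ℕ} (N N' Y : ℕ) (v₀ X : ℕ → ℤ) (T : Finset ℕ) (hT : T ⊆ range N')
    (m : ℕ → Fin r → ℤ) :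
    #{ω : ↥(Finset.Ico N N') → Fin Y | ∃ k : Fin r → ℤ, ∀ q ∈ T, vv N N' Y v₀ X ω q = ∑ j, m q j * k j}
      ≤ Y ^ ((N' - N) - #{q ∈ T | N ≤ q ∧ Dep T m q}) := by
  set D := {q ∈ T | N ≤ q ∧ Dep T m q} with hD
  have hDsub : D ⊆ Finset.Ico N N' := by
    intro q hq
    rw [hD, mem_filter] at hq
    rw [mem_Ico]
    exact ⟨hq.2.1, mem_range.mp (hT hq.1)⟩
  have hcard : Y ^ ((N' - N) - #D) = #(univ : Finset (↥(Finset.Ico N N' \ D) → Fin Y)) := by
    rw [Finset.card_univ, Fintype.card_fun, Fintype.card_fin, Fintype.card_coe,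
      Finset.card_sdiff_of_subset hDsub, Nat.card_Ico]
  rw [hcard]
  apply Finset.card_le_card_of_injOn
    (fun ω (x : ↥(Finset.Ico N N' \ D)) => ω ⟨x.1, (mem_sdiff.mp x.2).1⟩) (fun _ _ => by simp)
  intro ω hω ω' hω' heq
  simp only [coe_filter, mem_univ, true_and, Set.mem_ofPred_eq] at hω hω'
  obtain ⟨k, hk⟩ := hω
  obtain ⟨k', hk'⟩ := hω'
  have key : ∀ q, vv N N' Y v₀ X ω q = vv N N' Y v₀ X ω' q := by
    intro q
    induction q using Nat.strong_induction_on with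
    | _ q ih =>
      by_cases hq : q ∈ Finset.Ico N N'
      · by_cases hqD : q ∈ D
        · rw [hD, mem_filter] at hqD
          exact determ T m _ _ k k' hk hk' q hqD.1 hqD.2.2 ih
        · have := congrFun heq ⟨q, mem_sdiff.mpr ⟨hq, hqD⟩⟩
          simp only at this
          unfold vv
          rw [dif_pos hq, dif_pos hq, this]
      · unfold vv
        rw [dif_neg hq, dif_neg hq]
  funext x
  have := key x.1
  unfold vv at this
  rw [dif_pos x.2, dif_pos x.2] at this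
  have h2 : ((ω x : Fin Y) : ℕ) = ((ω' x : Fin Y) : ℕ) := by
    have h3 : (((ω x : Fin Y) : ℕ) : ℤ) = (((ω' x : Fin Y) : ℕ) : ℤ) := by linarith
    exact_mod_cast h3
  exact Fin.ext h2

/-- extension of rows -/
def ext {r : ℕ} (L : ℕ) (T : Finset ℕ) (μ : ↥T → ↥(ball r L)) (q : ℕ) : Fin r → ℤ :=
  if h : q ∈ T then (μ ⟨q, h⟩ : Fin r → ℤ) else 0

open Classical in
/-- bad outcomes -/
noncomputable def badSet (A L N N' Y : ℕ) (v₀ X : ℕ → ℤ) (r : ℕ) (T : Finset ℕ)
    (μ : ↥T → ↥(ball r L)) : Finset (↥(Finset.Ico N N') → Fin Y) :=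
  if #T < A * #{q ∈ T | N ≤ q ∧ Dep T (ext L T μ) q} then
    univ.filter fun ω => ∃ k : Fin r → ℤ, ∀ q ∈ T,
      vv N N' Y v₀ X ω q = ∑ j, ext L T μ q j * k j
  else ∅

open Classical in
lemma card_badSet (A L N N' B : ℕ) (hB : 1 ≤ B) (v₀ X : ℕ → ℤ) (r : ℕ) (T : Finset ℕ)
    (hT : T ⊆ range N') (μ : ↥T → ↥(ball r L)) :
    (#(badSet A L N N' (B ^ A) v₀ X r T μ) : ℝ) ≤
      ((B ^ A : ℕ) : ℝ) ^ (N' - N) * (B : ℝ)⁻¹ * ((B : ℝ)⁻¹) ^ #T := by
  have hB0 : (0 : ℝ) < B := by exact_mod_cast hB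
  unfold badSet
  split_ifs with h
  · set D := {q ∈ T | N ≤ q ∧ Dep T (ext L T μ) q} with hD
    have hDsub : D ⊆ Finset.Ico N N' := by
      intro q hq
      rw [hD, mem_filter] at hq
      rw [mem_Ico]
      exact ⟨hq.2.1, mem_range.mp (hT hq.1)⟩
    have hDc : #D ≤ N' - N := by
      have := Finset.card_le_card hDsub
      rwa [Nat.card_Ico] at this
    have h1 := count_cons N N' (B ^ A) v₀ X T hT (ext L T μ)
    have h2 : ((B ^ A) ^ ((N' - N) - #D)) * B ^ (#T + 1) ≤ (B ^ A) ^ (N' - N) := by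
      calc ((B ^ A) ^ ((N' - N) - #D)) * B ^ (#T + 1)
          ≤ ((B ^ A) ^ ((N' - N) - #D)) * (B ^ A) ^ #D := by
            apply Nat.mul_le_mul_left
            rw [← pow_mul]
            exact Nat.pow_le_pow_right hB h
        _ = (B ^ A) ^ (N' - N) := by
            rw [← pow_add, Nat.sub_add_cancel hDc]
    have h3 : (#{ω : ↥(Finset.Ico N N') → Fin (B ^ A) | ∃ k : Fin r → ℤ, ∀ q ∈ T,
        vv N N' (B ^ A) v₀ X ω q = ∑ j, ext L T μ q j * k j}) * B ^ (#T + 1) ≤ (B ^ A) ^ (N' - N) :=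
      (Nat.mul_le_mul_right _ h1).trans h2
    have h4 : ((#{ω : ↥(Finset.Ico N N') → Fin (B ^ A) | ∃ k : Fin r → ℤ, ∀ q ∈ T,
        vv N N' (B ^ A) v₀ X ω q = ∑ j, ext L T μ q j * k j} : ℕ) : ℝ) * (B : ℝ) ^ (#T + 1)
        ≤ ((B ^ A : ℕ) : ℝ) ^ (N' - N) := by exact_mod_cast h3
    rw [mul_assoc, ← pow_succ', inv_pow, ← div_eq_mul_inv, le_div_iff₀ (by positivity)]
    exact h4
  · simp only [card_empty, CharP.cast_eq_zero]
    positivity

open Classical in
/-- the random choice: there are choices with `Good` -/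
lemma exists_good (A L B N N' : ℕ) (hN : N ≤ N') (hB : 4 * (N' + 1) * (2 * N' + 1) ^ L ≤ B)
    (v₀ X : ℕ → ℤ) : ∃ v : ℕ → ℤ, (∀ q < N, v q = v₀ q) ∧
      (∀ q, N ≤ q → q < N' → X q ≤ v q ∧ v q < X q + (B : ℤ) ^ A) ∧ Good A L N N' v := by
  set ℓ : ℕ := (2 * N' + 1) ^ L with hℓ
  have hℓ1 : 1 ≤ ℓ := Nat.one_le_pow _ _ (by omega)
  have hB4 : 4 * (N' + 1) ≤ B := le_trans (by nlinarith) hB
  have hB1 : 1 ≤ B := by omega
  have hB2 : N' * ℓ ≤ B := le_trans (by nlinarith) hB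
  have hB0 : (0 : ℝ) < B := by exact_mod_cast hB1
  by_contra hcon
  push Not at hcon
  -- every ω is bad
  have hbad : ∀ ω : ↥(Finset.Ico N N') → Fin (B ^ A), ¬ Good A L N N' (vv N N' (B ^ A) v₀ X ω) := by
    intro ω
    apply hcon
    · intro q hq
      unfold vv
      rw [dif_neg (by rw [mem_Ico]; omega)]
    · intro q h1 h2
      unfold vv
      rw [dif_pos (by rw [mem_Ico]; omega)]
      constructor
      · have : (0 : ℤ) ≤ (((ω ⟨q, by rw [mem_Ico]; omega⟩ : Fin (B ^ A)) : ℕ) : ℤ) := by positivity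
        linarith
      · have := (ω ⟨q, by rw [mem_Ico]; omega⟩).2
        have h3 : (((ω ⟨q, by rw [mem_Ico]; omega⟩ : Fin (B ^ A)) : ℕ) : ℤ) < (B : ℤ) ^ A := by
          exact_mod_cast this
        linarith
  have hcover : (univ : Finset (↥(Finset.Ico N N') → Fin (B ^ A))) ⊆
      (range (N' + 1)).biUnion fun r => (range N').powerset.biUnion fun T =>
        (univ : Finset (↥T → ↥(ball r L))).biUnion fun μ => badSet A L N N' (B ^ A) v₀ X r T μ := by
    intro ω _
    have h := hbad ω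
    unfold Good at h
    push Not at h
    obtain ⟨r, hr, k, T, hT, m, hm1, hm2, hm3⟩ := h
    simp only [mem_biUnion, mem_range, mem_powerset, mem_univ, true_and]
    refine ⟨r, by omega, T, hT, fun x => ⟨m x.1, mem_ball.mpr (hm1 x.1 x.2)⟩, ?_⟩
    set μ : ↥T → ↥(ball r L) := fun x => ⟨m x.1, mem_ball.mpr (hm1 x.1 x.2)⟩ with hμ
    have hext : ∀ q ∈ T, ext L T μ q = m q := by
      intro q hq
      unfold ext
      rw [dif_pos hq]
    unfold badSet
    rw [if_pos]
    · simp only [mem_filter, mem_univ, true_and]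
      refine ⟨k, fun q hq => ?_⟩
      rw [hext q hq]
      exact hm2 q hq
    · have : {q ∈ T | N ≤ q ∧ Dep T (ext L T μ) q} = {q ∈ T | N ≤ q ∧ Dep T m q} := by
        apply Finset.filter_congr
        intro q hq
        rw [Dep_congr hext hq]
      rw [this]
      exact hm3
  have hc := Finset.card_le_card hcover
  rw [Finset.card_univ, Fintype.card_fun, Fintype.card_fin, Fintype.card_coe, Nat.card_Ico] at hc
  have hc2 : (((B ^ A) ^ (N' - N) : ℕ) : ℝ) ≤ ∑ r ∈ range (N' + 1), ∑ T ∈ (range N').powerset,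
      ∑ μ : ↥T → ↥(ball r L), (#(badSet A L N N' (B ^ A) v₀ X r T μ) : ℝ) := by
    have h1 : (B ^ A) ^ (N' - N) ≤ ∑ r ∈ range (N' + 1), ∑ T ∈ (range N').powerset,
        ∑ μ : ↥T → ↥(ball r L), #(badSet A L N N' (B ^ A) v₀ X r T μ) := by
      refine hc.trans (card_biUnion_le.trans (Finset.sum_le_sum fun r _ => ?_))
      exact card_biUnion_le.trans (Finset.sum_le_sum fun T _ => card_biUnion_le)
    exact_mod_cast h1
  set Z : ℝ := ((B ^ A : ℕ) : ℝ) ^ (N' - N) with hZ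
  have hZ0 : 0 < Z := by positivity
  have hb : ∀ r ∈ range (N' + 1), ∑ T ∈ (range N').powerset,
      ∑ μ : ↥T → ↥(ball r L), (#(badSet A L N N' (B ^ A) v₀ X r T μ) : ℝ) ≤ Z * (B : ℝ)⁻¹ * 3 := by
    intro r hr
    have h1 : ∀ T ∈ (range N').powerset, ∑ μ : ↥T → ↥(ball r L),
        (#(badSet A L N N' (B ^ A) v₀ X r T μ) : ℝ) ≤ Z * (B : ℝ)⁻¹ * ((ℓ : ℝ) * (B : ℝ)⁻¹) ^ #T := by
      intro T hT
      calc ∑ μ : ↥T → ↥(ball r L), (#(badSet A L N N' (B ^ A) v₀ X r T μ) : ℝ)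
          ≤ ∑ μ : ↥T → ↥(ball r L), (Z * (B : ℝ)⁻¹ * ((B : ℝ)⁻¹) ^ #T) :=
            Finset.sum_le_sum fun μ _ =>
              card_badSet A L N N' B hB1 v₀ X r T (mem_powerset.mp hT) μ
        _ = ((#(ball r L) : ℝ) ^ #T) * (Z * (B : ℝ)⁻¹ * ((B : ℝ)⁻¹) ^ #T) := by
            rw [Finset.sum_const, Finset.card_univ, Fintype.card_fun, Fintype.card_coe,
              Fintype.card_coe, nsmul_eq_mul]
            push_cast
            ring
        _ ≤ ((ℓ : ℝ) ^ #T) * (Z * (B : ℝ)⁻¹ * ((B : ℝ)⁻¹) ^ #T) := by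
            apply mul_le_mul_of_nonneg_right _ (by positivity)
            apply pow_le_pow_left₀ (by positivity)
            have h2 : #(ball r L) ≤ ℓ := by
              refine (card_ball r L).trans ?_
              apply Nat.pow_le_pow_left
              rw [mem_range] at hr
              omega
            exact_mod_cast h2
        _ = _ := by
            rw [mul_pow]
            ring
    calc ∑ T ∈ (range N').powerset,
      ∑ μ : ↥T → ↥(ball r L), (#(badSet A L N N' (B ^ A) v₀ X r T μ) : ℝ)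
        ≤ ∑ T ∈ (range N').powerset, Z * (B : ℝ)⁻¹ * ((ℓ : ℝ) * (B : ℝ)⁻¹) ^ #T :=
          Finset.sum_le_sum h1
      _ = Z * (B : ℝ)⁻¹ * ((ℓ : ℝ) * (B : ℝ)⁻¹ + 1) ^ N' := by
          rw [← Finset.mul_sum]
          congr 1
          have := Finset.sum_pow_mul_eq_add_pow ((ℓ : ℝ) * (B : ℝ)⁻¹) 1 (range N')
          simpa using this
      _ ≤ Z * (B : ℝ)⁻¹ * 3 := by
          apply mul_le_mul_of_nonneg_left _ (by positivity)
          calc ((ℓ : ℝ) * (B : ℝ)⁻¹ + 1) ^ N' ≤ (Real.exp ((ℓ : ℝ) * (B : ℝ)⁻¹)) ^ N' :=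
                pow_le_pow_left₀ (by positivity) (Real.add_one_le_exp _) _
            _ = Real.exp ((N' : ℝ) * ((ℓ : ℝ) * (B : ℝ)⁻¹)) := (Real.exp_nat_mul _ _).symm
            _ ≤ Real.exp 1 := by
                apply Real.exp_le_exp.mpr
                rw [← mul_assoc, ← div_eq_mul_inv, div_le_one hB0]
                exact_mod_cast hB2
            _ ≤ 3 := by
                have := Real.exp_one_lt_d9
                linarith
  have hfin := hc2.trans (Finset.sum_le_sum hb)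
  rw [Finset.sum_const, card_range, nsmul_eq_mul] at hfin
  have hZ' : (((B ^ A) ^ (N' - N) : ℕ) : ℝ) = Z := by rw [hZ]; push_cast; ring
  rw [hZ'] at hfin
  have h5 : ((N' + 1 : ℕ) : ℝ) * (Z * (B : ℝ)⁻¹ * 3) = Z * (((N' + 1 : ℕ) : ℝ) * 3 / B) := by
    field_simp
  rw [h5] at hfin
  have h6 : ((N' + 1 : ℕ) : ℝ) * 3 / B < 1 := by
    rw [div_lt_one hB0]
    have : (N' + 1) * 3 < B := by omega
    exact_mod_cast this
  nlinarith

end Pool.Agent.W738.Mesh
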