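import Mathlib
import Pool.Agent.W738.Mesh.Count

set_option autoImplicit false

open Finset

namespace Pool.Agent.W738.Mesh

lemma exists_eta (i N : ℕ) : ∃ η : ℕ,
    4 * ((N + (i + 1) * (2 ^ (i + 2) * η)) + 1) * (2 * (N + (i + 1) * (2 ^ (i + 2) * η)) + 1) ^ (2 ^ i)
      ≤ 2 ^ η := by
  set L := 2 ^ i with hL
  set c : ℕ := N + (i + 1) * 2 ^ (i + 2) with hc
  have hc1 : 1 ≤ c := by
    have : 0 < (i + 1) * 2 ^ (i + 2) := by positivity
    omega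
  have h := tendsto_pow_const_div_const_pow_of_one_lt (L + 1) (r := (2 : ℝ)) (by norm_num)
  have hpos : (0 : ℝ) < 1 / (4 * (3 * c) ^ (L + 1)) := by positivity
  have h1 := (h.eventually (gt_mem_nhds hpos)).and (Filter.eventually_ge_atTop 1)
  obtain ⟨η, h2, h3⟩ := h1.exists
  refine ⟨η, ?_⟩
  have hN' : N + (i + 1) * (2 ^ (i + 2) * η) ≤ c * η := by
    rw [hc]
    nlinarith [Nat.zero_le N]
  have h4 : 4 * ((N + (i + 1) * (2 ^ (i + 2) * η)) + 1) *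
      (2 * (N + (i + 1) * (2 ^ (i + 2) * η)) + 1) ^ L ≤ 4 * ((3 * c) ^ (L + 1) * η ^ (L + 1)) := by
    rw [← mul_pow, pow_succ (3 * c * η) L, mul_assoc]
    apply Nat.mul_le_mul_left
    rw [mul_comm]
    have hcη : 1 ≤ c * η := Nat.one_le_iff_ne_zero.mpr (by positivity)
    have e3 : 3 * c * η = 3 * (c * η) := by ring
    rw [e3]
    generalize N + (i + 1) * (2 ^ (i + 2) * η) = P at *
    generalize c * η = Q at *
    apply Nat.mul_le_mul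
    · apply Nat.pow_le_pow_left
      omega
    · omega
  refine h4.trans ?_
  rw [div_lt_div_iff₀ (by positivity) (by positivity)] at h2
  have h5 : (η : ℝ) ^ (L + 1) * (4 * (3 * c) ^ (L + 1)) ≤ 1 * 2 ^ η := h2.le
  have h6 : η ^ (L + 1) * (4 * (3 * c) ^ (L + 1)) ≤ 1 * 2 ^ η := by exact_mod_cast h5
  nlinarith

noncomputable def eta (i N : ℕ) : ℕ := (exists_eta i N).choose

lemma eta_spec (i N : ℕ) :
    4 * ((N + (i + 1) * (2 ^ (i + 2) * eta i N)) + 1) *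
      (2 * (N + (i + 1) * (2 ^ (i + 2) * eta i N)) + 1) ^ (2 ^ i) ≤ 2 ^ (eta i N) :=
  (exists_eta i N).choose_spec

noncomputable def NN : ℕ → ℕ
  | 0 => 0
  | (i + 1) => NN i + (i + 1) * (2 ^ (i + 2) * eta i (NN i))

noncomputable def nn (i : ℕ) : ℕ := 2 ^ (i + 2) * eta i (NN i)

lemma NN_zero : NN 0 = 0 := rfl

lemma NN_succ (i : ℕ) : NN (i + 1) = NN i + (i + 1) * nn i := rfl

lemma eta_pos (i N : ℕ) : 0 < eta i N := by
  rcases Nat.eq_zero_or_pos (eta i N) with h | h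
  · have := eta_spec i N
    rw [h] at this
    simp only [mul_zero, add_zero, pow_zero] at this
    have h2 : 1 ≤ (2 * N + 1) ^ (2 ^ i) := Nat.one_le_pow _ _ (by omega)
    nlinarith
  · exact h

lemma nn_pos (i : ℕ) : 0 < nn i := Nat.mul_pos (by positivity) (eta_pos _ _)

lemma two_dvd_nn (i : ℕ) : 2 ∣ nn i := by
  unfold nn
  exact Dvd.dvd.mul_right (dvd_pow_self 2 (by omega)) _

/-- exponent index -/
def tt (N : ℕ → ℕ) (i q : ℕ) : ℕ := N (i + 1) + N i + (i + 1) * ((q - N i) / (i + 1) + 1)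

lemma Good_congr {A L N N' : ℕ} {v v' : ℕ → ℤ} (h : ∀ q < N', v q = v' q) (hg : Good A L N N' v) :
    Good A L N N' v' := by
  intro r hr k T hT m h1 h2
  apply hg r hr k T hT m h1
  intro q hq
  rw [h q (mem_range.mp (hT hq))]
  exact h2 q hq

lemma step (i : ℕ) (v₀ : ℕ → ℤ) : ∃ v : ℕ → ℤ, (∀ q < NN i, v q = v₀ q) ∧
      (∀ q, NN i ≤ q → q < NN (i + 1) → (2 : ℤ) ^ (4 * (tt NN i q) ^ 3) ≤ v q ∧
        v q < (2 : ℤ) ^ (4 * (tt NN i q) ^ 3) + 2 ^ (nn i)) ∧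
      Good (2 ^ (i + 2)) (2 ^ i) (NN i) (NN (i + 1)) v := by
  have h := exists_good (2 ^ (i + 2)) (2 ^ i) (2 ^ (eta i (NN i))) (NN i) (NN (i + 1))
    (by rw [NN_succ]; omega) (eta_spec i (NN i)) v₀ (fun q => (2 : ℤ) ^ (4 * (tt NN i q) ^ 3))
  obtain ⟨v, h1, h2, h3⟩ := h
  refine ⟨v, h1, fun q ha hb => ?_, h3⟩
  obtain ⟨h4, h5⟩ := h2 q ha hb
  refine ⟨h4, ?_⟩
  have : ((2 ^ (eta i (NN i)) : ℕ) : ℤ) ^ (2 ^ (i + 2)) = 2 ^ (nn i) := by
    push_cast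
    rw [← pow_mul, nn, mul_comm]
  rw [this] at h5
  exact h5

noncomputable def VV : ℕ → (ℕ → ℤ)
  | 0 => fun _ => 0
  | (i + 1) => (step i (VV i)).choose

lemma VV_spec (i : ℕ) : (∀ q < NN i, VV (i + 1) q = VV i q) ∧
      (∀ q, NN i ≤ q → q < NN (i + 1) → (2 : ℤ) ^ (4 * (tt NN i q) ^ 3) ≤ VV (i + 1) q ∧
        VV (i + 1) q < (2 : ℤ) ^ (4 * (tt NN i q) ^ 3) + 2 ^ (nn i)) ∧
      Good (2 ^ (i + 2)) (2 ^ i) (NN i) (NN (i + 1)) (VV (i + 1)) := (step i (VV i)).choose_spec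

lemma NN_lt (i : ℕ) : NN i < NN (i + 1) := by
  rw [NN_succ]
  have : 0 < (i + 1) * nn i := Nat.mul_pos (by omega) (nn_pos i)
  omega

lemma NN_strictMono : StrictMono NN := strictMono_nat_of_lt_succ NN_lt

lemma VV_stable {i j : ℕ} (h : i ≤ j) : ∀ q < NN i, VV j q = VV i q := by
  induction j, h using Nat.le_induction with
  | base => intro q _; rfl
  | succ j hj ih =>
    intro q hq
    rw [(VV_spec j).1 q (lt_of_lt_of_le hq (NN_strictMono.monotone hj)), ih q hq]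

noncomputable def vseq (q : ℕ) : ℤ := VV (q + 1) q

lemma vseq_eq (i q : ℕ) (hq : q < NN (i + 1)) : VV (i + 1) q = vseq q := by
  unfold vseq
  rcases le_total (q + 1) (i + 1) with h | h
  · exact VV_stable h q (lt_of_lt_of_le (Nat.lt_succ_self q) (NN_strictMono.id_le (q + 1)))
  · exact (VV_stable h q hq).symm

lemma exists_seq : ∃ (n N : ℕ → ℕ) (v : ℕ → ℤ), N 0 = 0 ∧
    (∀ i, N (i + 1) = N i + (i + 1) * n i) ∧ (∀ i, 0 < n i) ∧ (∀ i, 2 ∣ n i) ∧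
    (∀ i q, N i ≤ q → q < N (i + 1) → (2 : ℤ) ^ (4 * (tt N i q) ^ 3) ≤ v q ∧
      v q < (2 : ℤ) ^ (4 * (tt N i q) ^ 3) + 2 ^ (n i)) ∧
    (∀ i, Good (2 ^ (i + 2)) (2 ^ i) (N i) (N (i + 1)) v) := by
  refine ⟨nn, NN, vseq, NN_zero, NN_succ, nn_pos, two_dvd_nn, ?_, ?_⟩
  · intro i q h1 h2
    rw [← vseq_eq i q h2]
    exact (VV_spec i).2.1 q h1 h2
  · intro i
    exact Good_congr (vseq_eq i) (VV_spec i).2.2

end Pool.Agent.W738.Mesh
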