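import Mathlib
import Pool.Agent.W738.Mesh.Build

set_option autoImplicit false

open Finset

namespace Pool.Agent.W738.Mesh

attribute [local instance] Matrix.seminormedAddCommGroup

lemma exp_bound (r s u : ℕ) (hr : 1 ≤ r) (hs : 1 ≤ s) (hu : 2 * r * s ≤ u) :
    r + r * (r + s) + (4 * u ^ 3 + 1) ≤ 4 * (u + 1) ^ 3 := by
  have h1 : r ≤ u := by nlinarith
  have h2 : r * s ≤ u := by nlinarith
  have h3 : r * r ≤ u * u := Nat.mul_le_mul h1 h1
  have h4 : 4 * (u + 1) ^ 3 = 4 * u ^ 3 + 12 * (u * u) + 12 * u + 4 := by ring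
  have h5 : r * (r + s) = r * r + r * s := by ring
  rw [h4, h5]
  generalize u ^ 3 = c
  generalize u * u = b at *
  generalize r * r = d at *
  omega

/-- Siegel's lemma excludes `r+1` values of very different size. -/
lemma siegel_excl {ι : Type} [Fintype ι] [DecidableEq ι] (r s : ℕ) (hr : 1 ≤ r) (hs : 1 ≤ s)
    (hι : Fintype.card ι = r + 1) (x : ι → ℤ) (τ : ι → ℕ) (hτ : Function.Injective τ)
    (hx1 : ∀ a, (2 : ℤ) ^ (4 * (τ a) ^ 3) ≤ x a) (hx2 : ∀ a, x a < 2 ^ (4 * (τ a) ^ 3 + 1))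
    (hτ2 : ∀ a, 2 * r * s < τ a) (M : Matrix (Fin r) ι ℤ) (hM : ∀ j a, |M j a| ≤ (2 : ℤ) ^ s)
    (k : Fin r → ℤ) (hk : ∀ a, x a = ∑ j, M j a * k j) : False := by
  obtain ⟨μ, hμ0, hμ, hμn⟩ := Int.Matrix.exists_ne_zero_int_vec_norm_le M
    (by rw [hι, Fintype.card_fin]; omega) (by rw [Fintype.card_fin]; omega)
  -- bound of μ
  have hMn : ‖M‖ ≤ (2 : ℝ) ^ s := by
    rw [Matrix.norm_le_iff (by positivity)]
    intro j a
    rw [Int.norm_eq_abs]
    exact_mod_cast hM j a
  have hR : ∀ a, |μ a| ≤ (2 : ℤ) ^ (r * (r + s)) := by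
    intro a
    have h1 : ‖μ a‖ ≤ ‖μ‖ := norm_le_pi_norm μ a
    have h2 : (|μ a| : ℝ) ≤ (2 : ℝ) ^ (r * (r + s)) := by
      rw [Int.norm_eq_abs] at h1
      refine (h1.trans hμn).trans ?_
      have he : ((Fintype.card (Fin r) : ℝ) / ((Fintype.card ι : ℝ) - (Fintype.card (Fin r) : ℝ))) = (r : ℝ) := by
        rw [hι, Fintype.card_fin]
        push_cast
        ring_nf
      rw [he, Real.rpow_natCast, hι]
      have h3 : (((r + 1 : ℕ) : ℝ)) ≤ (2 : ℝ) ^ r := by
        have : r + 1 ≤ 2 ^ r := Nat.lt_two_pow_self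
        exact_mod_cast this
      have h4 : max 1 ‖M‖ ≤ (2 : ℝ) ^ s := max_le (one_le_pow₀ (by norm_num)) hMn
      calc (((r + 1 : ℕ) : ℝ) * max 1 ‖M‖) ^ r ≤ ((2 : ℝ) ^ r * (2 : ℝ) ^ s) ^ r := by
            apply pow_le_pow_left₀ (by positivity)
            exact mul_le_mul h3 h4 (by positivity) (by positivity)
        _ = _ := by rw [← pow_add, ← pow_mul, mul_comm (r + s) r]
    exact_mod_cast h2
  have hsum : ∑ a, μ a * x a = 0 := by
    have h1 : ∀ j, ∑ a, M j a * μ a = 0 := by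
      intro j
      have := congrFun hμ j
      simpa [Matrix.mulVec, dotProduct] using this
    calc ∑ a, μ a * x a = ∑ a, ∑ j, k j * (M j a * μ a) := by
          apply Finset.sum_congr rfl
          intro a _
          rw [hk a, mul_sum]
          apply Finset.sum_congr rfl
          intro j _
          ring
      _ = ∑ j, ∑ a, k j * (M j a * μ a) := Finset.sum_comm
      _ = 0 := by
          apply Finset.sum_eq_zero
          intro j _
          rw [← mul_sum, h1 j, mul_zero]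
  have hne : (univ.filter fun a => μ a ≠ 0).Nonempty := by
    by_contra hc
    rw [Finset.not_nonempty_iff_eq_empty, Finset.filter_eq_empty_iff] at hc
    apply hμ0
    funext a
    simpa using hc (mem_univ a)
  obtain ⟨a, ha, hmax⟩ := Finset.exists_max_image _ τ hne
  rw [mem_filter] at ha
  have ha0 := ha.2
  set u := τ a - 1 with hu
  have hua : τ a = u + 1 := by have := hτ2 a; omega
  have hu2 : 2 * r * s ≤ u := by have := hτ2 a; omega
  -- other terms
  have hother : ∀ b ∈ univ.erase a, |μ b * x b| ≤ (2 : ℤ) ^ (r * (r + s)) * 2 ^ (4 * u ^ 3 + 1) := by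
    intro b hb
    have hba := Finset.ne_of_mem_erase hb
    by_cases hb0 : μ b = 0
    · rw [hb0, zero_mul, abs_zero]; positivity
    · have h1 := hmax b (by rw [mem_filter]; exact ⟨mem_univ b, hb0⟩)
      have h2 : τ b ≠ τ a := fun h => hba (hτ h)
      have h3 : τ b ≤ u := by omega
      have hxb : 0 < x b := lt_of_lt_of_le (by positivity) (hx1 b)
      rw [abs_mul]
      apply mul_le_mul (hR b) _ (abs_nonneg _) (by positivity)
      rw [abs_of_pos hxb]
      refine (hx2 b).le.trans ?_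
      apply pow_le_pow_right₀ (by norm_num)
      have : (τ b) ^ 3 ≤ u ^ 3 := Nat.pow_le_pow_left h3 3
      omega
  have hmain : x a ≤ (r : ℤ) * ((2 : ℤ) ^ (r * (r + s)) * 2 ^ (4 * u ^ 3 + 1)) := by
    have hxa : 0 < x a := lt_of_lt_of_le (by positivity) (hx1 a)
    have h1 : 1 ≤ |μ a| := Int.one_le_abs ha0
    have h2 : x a ≤ |μ a * x a| := by
      rw [abs_mul, abs_of_pos hxa]
      nlinarith
    have h3 : μ a * x a = - ∑ b ∈ univ.erase a, μ b * x b := by
      have h4 : μ a * x a + ∑ b ∈ univ.erase a, μ b * x b = ∑ b, μ b * x b :=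
        Finset.add_sum_erase univ (fun b => μ b * x b) (mem_univ a)
      linarith
    rw [h3, abs_neg] at h2
    refine h2.trans ((Finset.abs_sum_le_sum_abs _ _).trans ((Finset.sum_le_sum hother).trans ?_))
    rw [Finset.sum_const, Finset.card_erase_of_mem (mem_univ a), Finset.card_univ, hι, nsmul_eq_mul]
    simp
  have hrlt : (r : ℤ) < 2 ^ r := by exact_mod_cast Nat.lt_two_pow_self
  have hfin : (r : ℤ) * ((2 : ℤ) ^ (r * (r + s)) * 2 ^ (4 * u ^ 3 + 1)) < 2 ^ (4 * (τ a) ^ 3) := by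
    calc (r : ℤ) * ((2 : ℤ) ^ (r * (r + s)) * 2 ^ (4 * u ^ 3 + 1))
        < 2 ^ r * ((2 : ℤ) ^ (r * (r + s)) * 2 ^ (4 * u ^ 3 + 1)) :=
          mul_lt_mul_of_pos_right hrlt (by positivity)
      _ = 2 ^ (r + r * (r + s) + (4 * u ^ 3 + 1)) := by rw [pow_add, pow_add]; ring
      _ ≤ 2 ^ (4 * (τ a) ^ 3) := by
          apply pow_le_pow_right₀ (by norm_num)
          rw [hua]
          exact exp_bound r s u hr hs hu2
  exact absurd (hx1 a) (not_le.mpr (lt_of_le_of_lt hmain hfin))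

open Classical in
lemma card_indep_le {r : ℕ} (m : ℕ → Fin r → ℤ) (T : Finset ℕ) : #{q ∈ T | ¬ Dep T m q} ≤ r := by
  set S : ℕ → Submodule ℚ (Fin r → ℚ) := fun x =>
    Submodule.span ℚ ((fun (q' : ℕ) (j : Fin r) => (m q' j : ℚ)) '' {q' | q' ∈ T ∧ q' < x}) with hS
  have hmono : ∀ x, S x ≤ S (x + 1) := by
    intro x
    apply Submodule.span_mono
    apply Set.image_mono
    intro q hq
    exact ⟨hq.1, Nat.lt_succ_of_lt hq.2⟩
  have key : ∀ x, #{q ∈ T | ¬ Dep T m q ∧ q < x} ≤ Module.finrank ℚ (S x) := by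
    intro x
    induction x with
    | zero => simp
    | succ x ih =>
      by_cases hx : x ∈ T ∧ ¬ Dep T m x
      · have h1 : {q ∈ T | ¬ Dep T m q ∧ q < x + 1} ⊆ insert x {q ∈ T | ¬ Dep T m q ∧ q < x} := by
          intro q hq
          rw [mem_filter] at hq
          rw [mem_insert, mem_filter]
          rcases Nat.lt_succ_iff_lt_or_eq.mp hq.2.2 with h | h
          · exact Or.inr ⟨hq.1, hq.2.1, h⟩
          · exact Or.inl h
        have h2 : S x < S (x + 1) := by
          refine lt_of_le_of_ne (hmono x) ?_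
          intro he
          apply hx.2
          have h3 : (fun j => (m x j : ℚ)) ∈ S (x + 1) := by
            apply Submodule.subset_span
            exact ⟨x, ⟨hx.1, Nat.lt_succ_self x⟩, rfl⟩
          rw [← he] at h3
          exact h3
        have h4 := Submodule.finrank_lt_finrank_of_lt h2
        have h5 := (Finset.card_le_card h1).trans (Finset.card_insert_le _ _)
        omega
      · have h1 : {q ∈ T | ¬ Dep T m q ∧ q < x + 1} ⊆ {q ∈ T | ¬ Dep T m q ∧ q < x} := by
          intro q hq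
          rw [mem_filter] at hq ⊢
          rcases Nat.lt_succ_iff_lt_or_eq.mp hq.2.2 with h | h
          · exact ⟨hq.1, hq.2.1, h⟩
          · subst h
            exact absurd ⟨hq.1, hq.2.1⟩ hx
        exact (Finset.card_le_card h1).trans (ih.trans (Submodule.finrank_mono (hmono x)))
  have h1 := key (T.sup id + 1)
  have h2 : {q ∈ T | ¬ Dep T m q ∧ q < T.sup id + 1} = {q ∈ T | ¬ Dep T m q} := by
    apply Finset.filter_congr
    intro q hq
    have : q ≤ T.sup id := Finset.le_sup (f := id) hq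
    constructor
    · exact fun h => h.1
    · exact fun h => ⟨h, by omega⟩
  rw [h2] at h1
  refine h1.trans ?_
  have h3 := Submodule.finrank_le (S (T.sup id + 1))
  simpa using h3

/-- the block of `q` -/
def blk (N : ℕ → ℕ) (q : ℕ) : ℕ := Nat.findGreatest (fun i => N i ≤ q) q

section
variable {N n : ℕ → ℕ} (h0 : N 0 = 0) (hs : ∀ i, N (i + 1) = N i + (i + 1) * n i) (hn : ∀ i, 0 < n i)
include h0 hs hn

omit h0 in
lemma N_strictMono : StrictMono N := by
  apply strictMono_nat_of_lt_succ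
  intro i
  rw [hs]
  have : 0 < (i + 1) * n i := Nat.mul_pos (by omega) (hn i)
  omega

omit hs hn in
lemma blk_le (q : ℕ) : N (blk N q) ≤ q := by
  have : (fun i => N i ≤ q) (blk N q) := by
    apply Nat.findGreatest_spec (P := fun i => N i ≤ q) (m := 0) (Nat.zero_le _)
    simp [h0]
  exact this

omit h0 in
lemma lt_blk (q : ℕ) : q < N (blk N q + 1) := by
  by_contra hc
  push Not at hc
  have h1 : blk N q + 1 ≤ q := ((N_strictMono hs hn).id_le _).trans hc
  have h2 : blk N q + 1 ≤ blk N q := Nat.le_findGreatest h1 hc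
  omega

lemma blk_eq {i q : ℕ} (h1 : N i ≤ q) (h2 : q < N (i + 1)) : blk N q = i := by
  have h3 := blk_le (N := N) h0 q
  have h4 := lt_blk hs hn q
  have hm := N_strictMono hs hn
  have h5 : i < blk N q + 1 := hm.lt_iff_lt.mp (lt_of_le_of_lt h1 h4)
  have h6 : blk N q < i + 1 := hm.lt_iff_lt.mp (lt_of_le_of_lt h3 h2)
  omega

/-- facts about `tt` -/
lemma lt_tt (q : ℕ) : q < tt N (blk N q) q := by
  unfold tt
  have h3 := blk_le (N := N) h0 q
  have h4 := lt_blk hs hn q
  omega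

omit h0 hn in
lemma tt_le {i q : ℕ} (h1 : N i ≤ q) (h2 : q < N (i + 1)) : tt N i q ≤ 2 * N (i + 1) := by
  unfold tt
  have h3 : (q - N i) / (i + 1) < n i := by
    rw [Nat.div_lt_iff_lt_mul (by omega)]
    rw [hs] at h2
    rw [mul_comm]
    omega
  have h4 : (i + 1) * ((q - N i) / (i + 1) + 1) ≤ (i + 1) * n i := Nat.mul_le_mul_left _ h3
  have h5 := hs i
  omega

lemma tt_inj {q q' : ℕ} (h : tt N (blk N q) q = tt N (blk N q') q') :
    blk N q = blk N q' ∧ (q - N (blk N q)) / (blk N q + 1) = (q' - N (blk N q)) / (blk N q + 1) := by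
  have hm := N_strictMono hs hn
  have hlt : ∀ a b : ℕ, blk N a < blk N b → tt N (blk N a) a < tt N (blk N b) b := by
    intro a b hab
    refine lt_of_le_of_lt (tt_le hs (blk_le h0 a) (lt_blk hs hn a)) ?_
    unfold tt
    have h1 : N (blk N a + 1) ≤ N (blk N b) := hm.monotone hab
    have h2 : N (blk N b) < N (blk N b + 1) := hm (Nat.lt_succ_self _)
    omega
  have hb : blk N q = blk N q' := by
    rcases lt_trichotomy (blk N q) (blk N q') with h1 | h1 | h1
    · exact absurd h (hlt q q' h1).ne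
    · exact h1
    · exact absurd h.symm (hlt q' q h1).ne
  refine ⟨hb, ?_⟩
  rw [← hb] at h
  unfold tt at h
  have h3 : (blk N q + 1) * ((q - N (blk N q)) / (blk N q + 1) + 1)
    = (blk N q + 1) * ((q' - N (blk N q)) / (blk N q + 1) + 1) := by omega
  have h4 := Nat.eq_of_mul_eq_mul_left (by omega) h3
  omega

/-- fibres of `tt` are small -/
lemma fiber_card (s : ℕ) (S : Finset ℕ) (hS : ∀ q ∈ S, blk N q < s) (y : ℕ) (hy : y ∈ S.image (fun q => tt N (blk N q) q)) :
    #{q ∈ S | tt N (blk N q) q = y} ≤ s := by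
  rw [mem_image] at hy
  obtain ⟨q₀, hq₀, rfl⟩ := hy
  set b := blk N q₀ with hb
  set j := (q₀ - N b) / (b + 1) with hj
  have hsub : {q ∈ S | tt N (blk N q) q = tt N b q₀} ⊆ Finset.Ico (N b + (b + 1) * j) (N b + (b + 1) * j + (b + 1)) := by
    intro q hq
    rw [mem_filter] at hq
    obtain ⟨h1, h2⟩ := tt_inj h0 hs hn hq.2
    rw [h1, ← hb] at h2
    rw [← hj] at h2
    have h3 : N b ≤ q := by
      have := blk_le (N := N) h0 q
      rwa [h1, ← hb] at this
    rw [mem_Ico]
    have h4 := Nat.div_add_mod (q - N b) (b + 1)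
    have h5 := Nat.mod_lt (q - N b) (Nat.succ_pos b)
    rw [h2] at h4
    simp only [Nat.succ_eq_add_one] at h5
    omega
  have h1 := Finset.card_le_card hsub
  rw [Nat.card_Ico] at h1
  have h2 := hS q₀ hq₀
  rw [← hb] at h2
  omega

variable {v : ℕ → ℤ}
  (hv : ∀ i q, N i ≤ q → q < N (i + 1) → (2 : ℤ) ^ (4 * (tt N i q) ^ 3) ≤ v q ∧
      v q < (2 : ℤ) ^ (4 * (tt N i q) ^ 3) + 2 ^ (n i))
include hv

lemma v_bounds (q : ℕ) : (2 : ℤ) ^ (4 * (tt N (blk N q) q) ^ 3) ≤ v q ∧
    v q < (2 : ℤ) ^ (4 * (tt N (blk N q) q) ^ 3 + 1) := by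
  obtain ⟨h1, h2⟩ := hv _ q (blk_le h0 q) (lt_blk hs hn q)
  refine ⟨h1, lt_of_lt_of_le h2 ?_⟩
  rw [pow_succ (2 : ℤ) (4 * (tt N (blk N q) q) ^ 3)]
  have h3 : n (blk N q) ≤ 4 * (tt N (blk N q) q) ^ 3 := by
    have h4 : n (blk N q) ≤ tt N (blk N q) q := by
      unfold tt
      have h5 := hs (blk N q)
      have h6 : n (blk N q) ≤ (blk N q + 1) * n (blk N q) := Nat.le_mul_of_pos_left _ (by omega)
      omega
    have h7 : tt N (blk N q) q ≤ (tt N (blk N q) q) ^ 3 := Nat.le_self_pow (by norm_num) _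
    omega
  have h8 : (2 : ℤ) ^ n (blk N q) ≤ 2 ^ (4 * (tt N (blk N q) q) ^ 3) :=
    pow_le_pow_right₀ (by norm_num) h3
  linarith

/-- the part in thin blocks with large exponents -/
lemma part_b (r s : ℕ) (hr : 1 ≤ r) (hs1 : 1 ≤ s) (k : Fin r → ℤ) (m : ℕ → Fin r → ℤ) (F : Finset ℕ)
    (hm : ∀ q ∈ F, ∑ j, |m q j| ≤ (2 : ℤ) ^ s) (hk : ∀ q ∈ F, v q = ∑ j, m q j * k j)
    (hF1 : ∀ q ∈ F, blk N q < s) (hF2 : ∀ q ∈ F, 2 * r * s < tt N (blk N q) q) : #F ≤ s * r := by
  refine (Finset.card_le_mul_card_image (f := fun q => tt N (blk N q) q) F s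
    (fiber_card h0 hs hn s F hF1)).trans ?_
  apply Nat.mul_le_mul_left
  by_contra hc
  push Not at hc
  obtain ⟨G, hG1, hG2⟩ := Finset.exists_subset_card_eq (n := r + 1) hc
  have hpre : ∀ y : ↥G, ∃ q ∈ F, tt N (blk N q) q = y.1 := by
    intro y
    have := hG1 y.2
    rwa [mem_image] at this
  choose pre hpre1 hpre2 using hpre
  refine siegel_excl (ι := ↥G) r s hr hs1 (by rw [Fintype.card_coe, hG2]) (fun y => v (pre y))
    (fun y => y.1) Subtype.val_injective ?_ ?_ ?_ (fun j y => m (pre y) j) ?_ k ?_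
  · intro y
    have := (v_bounds h0 hs hn hv (pre y)).1
    rwa [hpre2 y] at this
  · intro y
    have := (v_bounds h0 hs hn hv (pre y)).2
    rwa [hpre2 y] at this
  · intro y
    have := hF2 (pre y) (hpre1 y)
    rwa [hpre2 y] at this
  · intro j y
    exact (Finset.single_le_sum (f := fun j => |m (pre y) j|) (fun i _ => abs_nonneg _)
      (mem_univ j)).trans (hm (pre y) (hpre1 y))
  · intro y
    exact hk (pre y) (hpre1 y)

variable (hg : ∀ i, Good (2 ^ (i + 2)) (2 ^ i) (N i) (N (i + 1)) v)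
include hg

omit hv in
open Classical in
/-- the part in thick blocks -/
lemma part_d (r s : ℕ) (k : Fin r → ℤ) (m : ℕ → Fin r → ℤ) (F : Finset ℕ)
    (hm : ∀ q ∈ F, ∑ j, |m q j| ≤ (2 : ℤ) ^ s) (hk : ∀ q ∈ F, v q = ∑ j, m q j * k j)
    (hF1 : ∀ q ∈ F, s ≤ blk N q) (hF2 : ∀ q ∈ F, r ≤ q) : #F ≤ 2 * r := by
  set D := {q ∈ F | Dep F m q} with hD
  have hblock : ∀ i, (#{q ∈ D | blk N q = i} : ℝ) ≤ (#F : ℝ) * (1 / 4) * (1 / 2) ^ i := by
    intro i
    by_cases he : {q ∈ D | blk N q = i} = ∅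
    · rw [he, card_empty]
      simp only [CharP.cast_eq_zero]
      positivity
    · obtain ⟨q₀, hq₀⟩ := Finset.nonempty_iff_ne_empty.mpr he
      rw [mem_filter, hD, mem_filter] at hq₀
      obtain ⟨⟨hq1, -⟩, hq2⟩ := hq₀
      have hsi : s ≤ i := hq2 ▸ hF1 q₀ hq1
      have hri : r ≤ N (i + 1) := by
        have h1 := hF2 q₀ hq1
        have h2 := lt_blk hs hn q₀
        rw [hq2] at h2
        omega
      set T' := {q ∈ F | q < N (i + 1)} with hT'
      have h3 := hg i r hri k T' (by intro q hq; rw [hT', mem_filter] at hq; exact mem_range.mpr hq.2) m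
        (by
          intro q hq
          rw [hT', mem_filter] at hq
          refine (hm q hq.1).trans ?_
          push_cast
          exact pow_le_pow_right₀ (by norm_num) hsi)
        (by
          intro q hq
          rw [hT', mem_filter] at hq
          exact hk q hq.1)
      have h4 : {q ∈ D | blk N q = i} ⊆ {q ∈ T' | N i ≤ q ∧ Dep T' m q} := by
        intro q hq
        rw [mem_filter, hD, mem_filter] at hq
        obtain ⟨⟨ha, hb⟩, hc⟩ := hq
        have hqlt : q < N (i + 1) := by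
          have := lt_blk hs hn q
          rwa [hc] at this
        rw [mem_filter]
        refine ⟨by rw [hT', mem_filter]; exact ⟨ha, hqlt⟩, ?_, ?_⟩
        · have := blk_le (N := N) h0 q
          rwa [hc] at this
        · unfold Dep at hb ⊢
          have h5 : {q' | q' ∈ T' ∧ q' < q} = {q' | q' ∈ F ∧ q' < q} := by
            ext x
            simp only [Set.mem_ofPred_eq, hT', mem_filter]
            constructor
            · exact fun h => ⟨h.1.1, h.2⟩
            · exact fun h => ⟨⟨h.1, by omega⟩, h.2⟩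
          rw [h5]
          exact hb
      have h5 := Finset.card_le_card h4
      have h6 : #T' ≤ #F := Finset.card_le_card (Finset.filter_subset _ _)
      have h7 : 2 ^ (i + 2) * #{q ∈ D | blk N q = i} ≤ #F :=
        (Nat.mul_le_mul_left _ h5).trans (h3.trans h6)
      have h8 : (2 : ℝ) ^ (i + 2) * (#{q ∈ D | blk N q = i} : ℝ) ≤ (#F : ℝ) := by exact_mod_cast h7
      have h9 : (#F : ℝ) * (1 / 4) * (1 / 2) ^ i = (#F : ℝ) / 2 ^ (i + 2) := by
        rw [pow_add, one_div_pow]
        field_simp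
        norm_num
      rw [h9, le_div_iff₀ (by positivity), mul_comm]
      exact h8
  have hDsum : (#D : ℝ) ≤ (#F : ℝ) / 2 := by
    set I := D.sup (blk N) + 1 with hI
    have h1 : #D = ∑ i ∈ range I, #{q ∈ D | blk N q = i} := by
      apply Finset.card_eq_sum_card_fiberwise
      intro q hq
      rw [mem_coe] at hq
      rw [mem_coe, mem_range]
      exact Nat.lt_succ_of_le (Finset.le_sup (f := blk N) hq)
    rw [h1]
    push_cast
    calc ∑ i ∈ range I, (#{q ∈ D | blk N q = i} : ℝ) ≤ ∑ i ∈ range I, (#F : ℝ) * (1 / 4) * (1 / 2) ^ i :=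
          Finset.sum_le_sum fun i _ => hblock i
      _ = (#F : ℝ) * (1 / 4) * ∑ i ∈ range I, (1 / 2 : ℝ) ^ i := by rw [mul_sum]
      _ ≤ (#F : ℝ) * (1 / 4) * 2 := mul_le_mul_of_nonneg_left (sum_geometric_two_le I) (by positivity)
      _ = (#F : ℝ) / 2 := by ring
  have h1 := card_indep_le m F
  have h2 : #{q ∈ F | Dep F m q} + #{q ∈ F | ¬ Dep F m q} = #F := Finset.card_filter_add_card_filter_not _
  rw [← hD] at h2
  have h3 : 2 * #D ≤ #F := by
    have : 2 * (#D : ℝ) ≤ #F := by linarith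
    exact_mod_cast this
  omega

open Classical in
/-- the mesh condition -/
lemma mesh_count (r s : ℕ) (hr : 1 ≤ r) (hs1 : 1 ≤ s) (k : Fin r → ℤ) (m : ℕ → Fin r → ℤ) (F : Finset ℕ)
    (hm : ∀ q ∈ F, ∑ j, |m q j| ≤ (2 : ℤ) ^ s) (hk : ∀ q ∈ F, v q = ∑ j, m q j * k j) :
    #F ≤ 6 * r * s := by
  set F1 := {q ∈ F | q < 2 * r * s} with hF1
  set F2 := {q ∈ F | blk N q < s ∧ 2 * r * s < tt N (blk N q) q} with hF2
  set F3 := {q ∈ F | q < r} with hF3
  set F4 := {q ∈ F | s ≤ blk N q ∧ r ≤ q} with hF4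
  have hcov : F ⊆ F1 ∪ F2 ∪ F3 ∪ F4 := by
    intro q hq
    rw [mem_union, mem_union, mem_union, hF1, hF2, hF3, hF4, mem_filter, mem_filter, mem_filter, mem_filter]
    have := lt_tt h0 hs hn q
    by_cases h1 : q < 2 * r * s
    · exact Or.inl (Or.inl (Or.inl ⟨hq, h1⟩))
    · by_cases h2 : blk N q < s
      · exact Or.inl (Or.inl (Or.inr ⟨hq, h2, by omega⟩))
      · by_cases h3 : q < r
        · exact Or.inl (Or.inr ⟨hq, h3⟩)
        · exact Or.inr ⟨hq, by omega, by omega⟩
  have c1 : #F1 ≤ 2 * r * s := by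
    have : F1 ⊆ range (2 * r * s) := by
      intro q hq
      rw [hF1, mem_filter] at hq
      exact mem_range.mpr hq.2
    simpa using Finset.card_le_card this
  have c2 : #F2 ≤ s * r := by
    apply part_b h0 hs hn hv r s hr hs1 k m F2
    · intro q hq; rw [hF2, mem_filter] at hq; exact hm q hq.1
    · intro q hq; rw [hF2, mem_filter] at hq; exact hk q hq.1
    · intro q hq; rw [hF2, mem_filter] at hq; exact hq.2.1
    · intro q hq; rw [hF2, mem_filter] at hq; exact hq.2.2
  have c3 : #F3 ≤ r := by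
    have : F3 ⊆ range r := by
      intro q hq
      rw [hF3, mem_filter] at hq
      exact mem_range.mpr hq.2
    simpa using Finset.card_le_card this
  have c4 : #F4 ≤ 2 * r := by
    apply part_d h0 hs hn hg r s k m F4
    · intro q hq; rw [hF4, mem_filter] at hq; exact hm q hq.1
    · intro q hq; rw [hF4, mem_filter] at hq; exact hk q hq.1
    · intro q hq; rw [hF4, mem_filter] at hq; exact hq.2.1
    · intro q hq; rw [hF4, mem_filter] at hq; exact hq.2.2
  have h1 := Finset.card_le_card hcov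
  have h2 := (Finset.card_union_le (F1 ∪ F2 ∪ F3) F4)
  have h3 := (Finset.card_union_le (F1 ∪ F2) F3)
  have h4 := (Finset.card_union_le F1 F2)
  have h5 : r ≤ r * s := Nat.le_mul_of_pos_right _ hs1
  have h6 : 6 * r * s = 6 * (r * s) := by ring
  have h7 : 2 * r * s = 2 * (r * s) := by ring
  have h8 : s * r = r * s := by ring
  rw [h7] at c1
  rw [h8] at c2
  rw [h6]
  omega

omit h0 hv in
open Classical in
/-- injectivity -/
lemma v_inj_aux {q q' : ℕ} (h0 : N 0 = 0) (hlt : q < q') : v q ≠ v q' := by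
  intro heq
  set i := blk N q' with hi
  have h1 : N i ≤ q' := blk_le h0 q'
  have h2 : q' < N (i + 1) := lt_blk hs hn q'
  have h3 := hg i 1 (by omega) (fun _ => v q') {q, q'}
    (by
      intro x hx
      rw [mem_insert, mem_singleton] at hx
      rw [mem_range]
      rcases hx with h | h <;> omega) (fun _ _ => 1)
    (by
      intro x _
      simp only [abs_one, sum_const, card_univ, Fintype.card_fin, mul_one, nsmul_eq_mul, Nat.cast_one]
      have : 1 ≤ 2 ^ i := Nat.one_le_two_pow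
      exact_mod_cast this)
    (by
      intro x hx
      rw [mem_insert, mem_singleton] at hx
      rcases hx with h | h
      · rw [h, heq]; simp
      · rw [h]; simp)
  have h4 : q' ∈ {x ∈ ({q, q'} : Finset ℕ) | N i ≤ x ∧ Dep {q, q'} (fun _ (_ : Fin 1) => (1 : ℤ)) x} := by
    rw [mem_filter]
    refine ⟨by simp, h1, ?_⟩
    unfold Dep
    apply Submodule.subset_span
    exact ⟨q, ⟨by simp, hlt⟩, rfl⟩
  have h5 := Finset.card_pos.mpr ⟨q', h4⟩
  have h6 : #({q, q'} : Finset ℕ) = 2 := Finset.card_pair (by omega)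
  rw [h6] at h3
  have h7 : 4 ≤ 2 ^ (i + 2) := by
    calc 4 = 2 ^ 2 := by norm_num
      _ ≤ 2 ^ (i + 2) := Nat.pow_le_pow_right (by norm_num) (by omega)
  have h8 : 4 * 1 ≤ 2 ^ (i + 2) * _ := Nat.mul_le_mul h7 h5
  have h9 := h8.trans h3
  omega

omit hv in
lemma v_inj : Function.Injective v := by
  intro q q' h
  rcases lt_trichotomy q q' with h1 | h1 | h1
  · exact absurd h (v_inj_aux hs hn hg h0 h1)
  · exact h1
  · exact absurd h.symm (v_inj_aux hs hn hg h0 h1)

/-- the mesh condition for the range of `v` -/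
lemma mesh_cond (r s : ℕ) (hr : 0 < r) (hs1 : 0 < s) (k : Fin r → ℤ) :
    ((Set.range v ∩ {z : ℤ | ∃ m : Fin r → ℤ, (∑ i, |m i|) ≤ (2 : ℤ) ^ s ∧ z = ∑ i, k i * m i}).ncard : ℝ)
      ≤ 6 * (r : ℝ) * (s : ℝ) := by
  classical
  set M := {z : ℤ | ∃ m : Fin r → ℤ, (∑ i, |m i|) ≤ (2 : ℤ) ^ s ∧ z = ∑ i, k i * m i} with hM
  by_cases hfin : (Set.range v ∩ M).Finite
  · have hinj := v_inj h0 hs hn hg
    have hF : (v ⁻¹' (Set.range v ∩ M)).Finite := hfin.preimage (hinj.injOn)
    set F := hF.toFinset with hFd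
    have hmem : ∀ q, q ∈ F ↔ v q ∈ M := by
      intro q
      rw [hFd, Set.Finite.mem_toFinset, Set.mem_preimage, Set.mem_inter_iff]
      simp
    have hch : ∀ q, ∃ m : Fin r → ℤ, v q ∈ M → ((∑ i, |m i|) ≤ (2 : ℤ) ^ s ∧ v q = ∑ i, k i * m i) := by
      intro q
      by_cases h : v q ∈ M
      · obtain ⟨m, hm⟩ := h
        exact ⟨m, fun _ => hm⟩
      · exact ⟨0, fun h' => absurd h' h⟩
    choose m hm using hch
    have h1 := mesh_count h0 hs hn hv hg r s hr hs1 k m F
      (fun q hq => (hm q ((hmem q).mp hq)).1)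
      (fun q hq => by rw [(hm q ((hmem q).mp hq)).2]; exact Finset.sum_congr rfl fun j _ => mul_comm _ _)
    have h2 : Set.range v ∩ M = ↑(F.image v) := by
      ext z
      simp only [Set.mem_inter_iff, Set.mem_range, coe_image, Set.mem_image, mem_coe]
      constructor
      · rintro ⟨⟨q, rfl⟩, h⟩
        exact ⟨q, (hmem q).mpr h, rfl⟩
      · rintro ⟨q, h, rfl⟩
        exact ⟨⟨q, rfl⟩, (hmem q).mp h⟩
    rw [h2, Set.ncard_coe_finset]
    have h3 : #(F.image v) ≤ 6 * r * s := Finset.card_image_le.trans h1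
    exact_mod_cast h3
  · rw [Set.Infinite.ncard hfin]
    simp only [CharP.cast_eq_zero]
    positivity

end

end Pool.Agent.W738.Mesh
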