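import Mathlib
import Pool.Agent.W738.Mesh.Cond

set_option autoImplicit false

open Finset

namespace Pool.Agent.W738.Mesh

/-- the character -/
noncomputable def ee (k : ℤ) (x : ℝ) : ℂ := Complex.exp (2 * (Real.pi : ℂ) * Complex.I * (k : ℂ) * (x : ℂ))

lemma ee_cont (k : ℤ) : Continuous (ee k) := by
  unfold ee
  fun_prop

lemma ee_mul_conj (k l : ℤ) (x : ℝ) : ee k x * (starRingEnd ℂ) (ee l x) = ee (k - l) x := by
  unfold ee
  rw [← Complex.exp_conj, ← Complex.exp_add]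
  congr 1
  simp only [map_mul, Complex.conj_ofReal, Complex.conj_I, map_ofNat, Int.cast_sub]
  rw [map_intCast]
  ring

lemma ee_sum {m : ℕ} (a : Fin m → ℤ) (x : ℝ) : ∏ i, ee (a i) x = ee (∑ i, a i) x := by
  unfold ee
  rw [← Complex.exp_sum]
  congr 1
  push_cast
  rw [mul_sum, sum_mul]

lemma ee_zero (x : ℝ) : ee 0 x = 1 := by simp [ee]

lemma integral_ee (k : ℤ) : ∫ x in (0:ℝ)..1, ee k x = if k = 0 then 1 else 0 := by
  split_ifs with h
  · subst h
    simp [ee_zero]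
  · unfold ee
    have hc : (2 * (Real.pi : ℂ) * Complex.I * (k : ℂ)) ≠ 0 := by
      have : (k : ℂ) ≠ 0 := by exact_mod_cast h
      have h2 : (Real.pi : ℂ) ≠ 0 := by exact_mod_cast Real.pi_ne_zero
      simp [this, h2, Complex.I_ne_zero]
    rw [integral_exp_mul_complex hc]
    have h1 : Complex.exp (2 * (Real.pi : ℂ) * Complex.I * (k : ℂ) * ((1 : ℝ) : ℂ)) = 1 := by
      have := Complex.exp_int_mul_two_pi_mul_I k
      rw [← this]
      congr 1
      push_cast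
      ring
    rw [h1]
    simp

lemma integral_sq {κ : Type} [Fintype κ] (Φ : κ → ℤ) :
    ∫ x in (0:ℝ)..1, ‖∑ a, ee (Φ a) x‖ ^ 2 = (#{p : κ × κ | Φ p.1 = Φ p.2} : ℝ) := by
  have h1 : (((∫ x in (0:ℝ)..1, ‖∑ a, ee (Φ a) x‖ ^ 2 : ℝ)) : ℂ) = (#{p : κ × κ | Φ p.1 = Φ p.2} : ℂ) := by
    rw [← intervalIntegral.integral_ofReal]
    have h2 : ∀ x : ℝ, ((‖∑ a, ee (Φ a) x‖ ^ 2 : ℝ) : ℂ) = ∑ p : κ × κ, ee (Φ p.1 - Φ p.2) x := by
      intro x
      rw [Complex.ofReal_pow, ← Complex.mul_conj', map_sum, Finset.sum_mul_sum, Fintype.sum_prod_type]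
      apply Finset.sum_congr rfl
      intro a _
      apply Finset.sum_congr rfl
      intro b _
      exact ee_mul_conj _ _ x
    simp_rw [h2]
    rw [intervalIntegral.integral_finsetSum (fun p _ => (ee_cont _).intervalIntegrable _ _)]
    simp_rw [integral_ee, sub_eq_zero]
    rw [Finset.sum_boole]
  exact_mod_cast h1

lemma integral_pow {κ : Type} [Fintype κ] (φ : κ → ℤ) (m : ℕ) :
    ∫ x in (0:ℝ)..1, ‖∑ a, ee (φ a) x‖ ^ (2 * m) =
      (#{p : (Fin m → κ) × (Fin m → κ) | ∑ i, φ (p.1 i) = ∑ i, φ (p.2 i)} : ℝ) := by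
  classical
  rw [← integral_sq (fun a : Fin m → κ => ∑ i, φ (a i))]
  congr 1
  funext x
  rw [mul_comm 2 m, pow_mul, ← norm_pow, Fintype.sum_pow]
  simp_rw [ee_sum]

/-- Cauchy-Schwarz for coincidences -/
lemma pairs_lower {κ E : Type} [Fintype κ] [Fintype E] (Φ : κ → ℤ) (ι : E → κ) (hι : Function.Injective ι)
    (S : Finset ℤ) (hS : ∀ e, Φ (ι e) ∈ S) :
    (Fintype.card E : ℝ) ^ 2 ≤ (#S : ℝ) * (#{p : κ × κ | Φ p.1 = Φ p.2} : ℝ) := by
  classical
  have h1 : Fintype.card E = ∑ z ∈ S, #{e : E | Φ (ι e) = z} := by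
    rw [← Finset.card_univ]
    exact Finset.card_eq_sum_card_fiberwise (fun e _ => hS e)
  have h2 : ∑ z ∈ S, (#{e : E | Φ (ι e) = z}) ^ 2 ≤ #{p : κ × κ | Φ p.1 = Φ p.2} := by
    calc ∑ z ∈ S, (#{e : E | Φ (ι e) = z}) ^ 2
        = ∑ z ∈ S, #((univ.filter fun e : E => Φ (ι e) = z) ×ˢ (univ.filter fun e : E => Φ (ι e) = z)) := by
          apply Finset.sum_congr rfl
          intro z _
          rw [Finset.card_product, sq]
      _ = #(S.biUnion fun z => ((univ.filter fun e : E => Φ (ι e) = z) ×ˢ (univ.filter fun e : E => Φ (ι e) = z))) := by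
          rw [Finset.card_biUnion]
          intro z _ z' _ hzz
          rw [Function.onFun, Finset.disjoint_left]
          intro p hp hp'
          rw [mem_product, mem_filter, mem_filter] at hp hp'
          exact hzz (hp.1.2.symm.trans hp'.1.2)
      _ ≤ #{p : κ × κ | Φ p.1 = Φ p.2} := by
          apply Finset.card_le_card_of_injOn (fun p => (ι p.1, ι p.2))
          · intro p hp
            rw [mem_coe, mem_biUnion] at hp
            obtain ⟨z, _, hp⟩ := hp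
            rw [mem_product, mem_filter, mem_filter] at hp
            rw [mem_coe, mem_filter]
            exact ⟨mem_univ _, hp.1.2.trans hp.2.2.symm⟩
          · intro p _ p' _ h
            rw [Prod.mk.injEq] at h
            exact Prod.ext (hι h.1) (hι h.2)
  have h3 : ((∑ z ∈ S, (#{e : E | Φ (ι e) = z} : ℝ))) ^ 2 ≤ (#S : ℝ) * ∑ z ∈ S, (#{e : E | Φ (ι e) = z} : ℝ) ^ 2 :=
    sq_sum_le_card_mul_sum_sq
  have h4 : (Fintype.card E : ℝ) = ∑ z ∈ S, (#{e : E | Φ (ι e) = z} : ℝ) := by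
    rw [h1]; push_cast; rfl
  rw [h4]
  refine h3.trans ?_
  apply mul_le_mul_of_nonneg_left _ (by positivity)
  exact_mod_cast h2

/-- lower bound for clustered sets -/
lemma cluster_lower (n w m : ℕ) (hm : 1 ≤ m) (X : Fin n → ℤ) (φ : Fin n × Fin w → ℤ)
    (hφ : ∀ p, X p.1 ≤ φ p ∧ φ p < X p.1 + 2 ^ n) :
    ((n.descFactorial m : ℝ) * (w : ℝ) ^ m) ^ 2 ≤ ((n.choose m : ℝ) * ((m : ℝ) * 2 ^ n)) *
      ∫ x in (0:ℝ)..1, ‖∑ a, ee (φ a) x‖ ^ (2 * m) := by
  classical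
  rw [integral_pow]
  set S : Finset ℤ := ((univ.powersetCard m : Finset (Finset (Fin n))) ×ˢ (range (m * 2 ^ n))).image
    (fun p => ∑ j ∈ p.1, X j + (p.2 : ℤ)) with hS
  have hScard : (#S : ℝ) ≤ (n.choose m : ℝ) * ((m : ℝ) * 2 ^ n) := by
    have h1 : #S ≤ (n.choose m) * (m * 2 ^ n) := by
      refine Finset.card_image_le.trans ?_
      rw [Finset.card_product, Finset.card_powersetCard, Finset.card_univ, Fintype.card_fin, card_range]
    exact_mod_cast h1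
  have hmem : ∀ e : (Fin m ↪ Fin n) × (Fin m → Fin w), ∑ i, φ (e.1 i, e.2 i) ∈ S := by
    intro e
    rw [hS, mem_image]
    have h1 : 0 ≤ ∑ i, (φ (e.1 i, e.2 i) - X (e.1 i)) := by
      apply Finset.sum_nonneg
      intro i _
      have := (hφ (e.1 i, e.2 i)).1
      simp only at this
      linarith
    have h2 : ∑ i, (φ (e.1 i, e.2 i) - X (e.1 i)) < (m : ℤ) * 2 ^ n := by
      have h3 : ∑ i : Fin m, (φ (e.1 i, e.2 i) - X (e.1 i)) < ∑ i : Fin m, (2 : ℤ) ^ n := by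
        apply Finset.sum_lt_sum_of_nonempty
        · exact ⟨⟨0, hm⟩, mem_univ _⟩
        · intro i _
          have := (hφ (e.1 i, e.2 i)).2
          simp only at this
          linarith
      simpa using h3
    refine ⟨(univ.map e.1, (∑ i, (φ (e.1 i, e.2 i) - X (e.1 i))).toNat), ?_, ?_⟩
    · rw [mem_product, mem_powersetCard, mem_range]
      refine ⟨⟨subset_univ _, by simp⟩, ?_⟩
      simp only
      rw [Int.toNat_lt h1]
      push_cast
      exact h2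
    · simp only
      rw [Int.toNat_of_nonneg h1, Finset.sum_map, Finset.sum_sub_distrib]
      ring
  have hinj : Function.Injective (fun (e : (Fin m ↪ Fin n) × (Fin m → Fin w)) (i : Fin m) => (e.1 i, e.2 i)) := by
    intro e e' h
    have h1 : ∀ i, e.1 i = e'.1 i ∧ e.2 i = e'.2 i := by
      intro i
      have := congrFun h i
      simpa using this
    apply Prod.ext
    · exact Function.Embedding.ext fun i => (h1 i).1
    · funext i
      exact (h1 i).2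
  have h := pairs_lower (fun a : Fin m → Fin n × Fin w => ∑ i, φ (a i)) _ hinj S hmem
  have hE : (Fintype.card ((Fin m ↪ Fin n) × (Fin m → Fin w)) : ℝ) = (n.descFactorial m : ℝ) * (w : ℝ) ^ m := by
    rw [Fintype.card_prod, Fintype.card_embedding_eq, Fintype.card_fun]
    simp
  rw [hE] at h
  refine h.trans ?_
  exact mul_le_mul_of_nonneg_right hScard (by positivity)

/-- numerical consequence with `n = 2m` -/
lemma cluster_lower' (w m : ℕ) (hm : 1 ≤ m) (X : Fin (2 * m) → ℤ) (φ : Fin (2 * m) × Fin w → ℤ)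
    (hφ : ∀ p, X p.1 ≤ φ p ∧ φ p < X p.1 + 2 ^ (2 * m)) :
    ((m.factorial : ℝ)) ^ 2 * (w : ℝ) ^ (2 * m) ≤ 2 * (m : ℝ) ^ 2 *
      ∫ x in (0:ℝ)..1, ‖∑ a, ee (φ a) x‖ ^ (2 * m) := by
  have h := cluster_lower (2 * m) w m hm X φ hφ
  set I := ∫ x in (0:ℝ)..1, ‖∑ a, ee (φ a) x‖ ^ (2 * m) with hI
  have hI0 : 0 ≤ I := by
    apply intervalIntegral.integral_nonneg (by norm_num)
    intro x _
    positivity
  have hc : (2 * m).choose m = Nat.centralBinom m := rfl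
  have h4 : (4 : ℝ) ^ m ≤ 2 * m * (Nat.centralBinom m) := by
    exact_mod_cast Nat.four_pow_le_two_mul_self_mul_centralBinom m hm
  rw [Nat.descFactorial_eq_factorial_mul_choose, hc] at h
  set c : ℝ := (Nat.centralBinom m : ℝ) with hcd
  have hc0 : 0 < c := by
    rw [hcd]
    exact_mod_cast Nat.centralBinom_pos m
  push_cast at h
  rw [← hcd] at h
  have h5 : (2 : ℝ) ^ (2 * m) = 4 ^ m := by rw [pow_mul]; norm_num
  rw [h5] at h
  have hm0 : (0 : ℝ) < m := by exact_mod_cast hm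
  -- divide by c
  have h6 : c * ((m.factorial : ℝ) ^ 2 * (w : ℝ) ^ (2 * m)) ≤ (m : ℝ) * 4 ^ m * I := by
    have h7 : c * (c * ((m.factorial : ℝ) ^ 2 * (w : ℝ) ^ (2 * m))) ≤ c * ((m : ℝ) * 4 ^ m * I) := by
      calc c * (c * ((m.factorial : ℝ) ^ 2 * (w : ℝ) ^ (2 * m)))
          = ((m.factorial : ℝ) * c * (w : ℝ) ^ m) ^ 2 := by rw [mul_comm 2 m, pow_mul]; ring
        _ ≤ _ := h
        _ = _ := by ring
    exact le_of_mul_le_mul_left h7 hc0
  have h8 : (m : ℝ) * 4 ^ m * I ≤ c * (2 * (m : ℝ) ^ 2 * I) := by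
    calc (m : ℝ) * 4 ^ m * I ≤ (m : ℝ) * (2 * m * c) * I := by
          apply mul_le_mul_of_nonneg_right _ hI0
          exact mul_le_mul_of_nonneg_left h4 hm0.le
      _ = _ := by ring
  exact le_of_mul_le_mul_left (h6.trans h8) hc0

/-- the final numerical contradiction -/
lemma numeric_contra (w m : ℕ) (hm : 1 ≤ m) (C I : ℝ) (hC : 0 < C) (hw : 256 * C ^ 2 ≤ w)
    (h1 : ((m.factorial : ℝ)) ^ 2 * (w : ℝ) ^ (2 * m) ≤ 2 * (m : ℝ) ^ 2 * I)
    (h2 : I ≤ (C ^ 2 * (2 * m) * ((2 * m) * w)) ^ m) : False := by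
  have hm0 : (0 : ℝ) < m := by exact_mod_cast hm
  have hw0 : (0 : ℝ) < w := lt_of_lt_of_le (by positivity) hw
  have hf0 : (0 : ℝ) < m.factorial := by exact_mod_cast Nat.factorial_pos m
  have h3 : (m : ℝ) ^ m ≤ Real.exp 1 ^ m * m.factorial := by
    have := Real.pow_div_factorial_le_exp (m : ℝ) hm0.le m
    rw [div_le_iff₀ hf0] at this
    rwa [← Real.exp_nat_mul, mul_one]
  have h4 : ((m : ℝ) ^ m) ^ 2 ≤ (8 : ℝ) ^ m * (m.factorial : ℝ) ^ 2 := by
    calc ((m : ℝ) ^ m) ^ 2 ≤ (Real.exp 1 ^ m * m.factorial) ^ 2 :=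
          pow_le_pow_left₀ (by positivity) h3 2
      _ = (Real.exp 1 ^ 2) ^ m * (m.factorial : ℝ) ^ 2 := by rw [mul_pow, ← pow_mul, ← pow_mul, mul_comm m 2]
      _ ≤ _ := by
          apply mul_le_mul_of_nonneg_right _ (by positivity)
          apply pow_le_pow_left₀ (by positivity)
          have := Real.exp_one_lt_d9
          have h0 := Real.exp_pos 1
          nlinarith
  have h5 : (C ^ 2 * (2 * m) * ((2 * m) * w)) ^ m = (4 * C ^ 2) ^ m * ((m : ℝ) ^ m) ^ 2 * (w : ℝ) ^ m := by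
    rw [← pow_mul, mul_comm m 2, pow_mul, ← mul_pow, ← mul_pow]
    congr 1
    ring
  rw [h5] at h2
  have h6 : (m.factorial : ℝ) ^ 2 * (w : ℝ) ^ m * (w : ℝ) ^ m ≤
      (m.factorial : ℝ) ^ 2 * (2 * (m : ℝ) ^ 2 * (32 * C ^ 2) ^ m) * (w : ℝ) ^ m := by
    calc (m.factorial : ℝ) ^ 2 * (w : ℝ) ^ m * (w : ℝ) ^ m = (m.factorial : ℝ) ^ 2 * (w : ℝ) ^ (2 * m) := by
          rw [two_mul, pow_add]; ring
      _ ≤ 2 * (m : ℝ) ^ 2 * I := h1
      _ ≤ 2 * (m : ℝ) ^ 2 * ((4 * C ^ 2) ^ m * ((m : ℝ) ^ m) ^ 2 * (w : ℝ) ^ m) :=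
          mul_le_mul_of_nonneg_left h2 (by positivity)
      _ ≤ 2 * (m : ℝ) ^ 2 * ((4 * C ^ 2) ^ m * ((8 : ℝ) ^ m * (m.factorial : ℝ) ^ 2) * (w : ℝ) ^ m) := by
          gcongr
      _ = _ := by
          rw [show (32 : ℝ) * C ^ 2 = (4 * C ^ 2) * 8 by ring, mul_pow (4 * C ^ 2) 8 m]
          ring
  have h7 : (m.factorial : ℝ) ^ 2 * (w : ℝ) ^ m ≤ (m.factorial : ℝ) ^ 2 * (2 * (m : ℝ) ^ 2 * (32 * C ^ 2) ^ m) :=
    le_of_mul_le_mul_right h6 (by positivity)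
  have h8 : (w : ℝ) ^ m ≤ 2 * (m : ℝ) ^ 2 * (32 * C ^ 2) ^ m := le_of_mul_le_mul_left h7 (by positivity)
  have h9 : (8 : ℝ) ^ m * (32 * C ^ 2) ^ m ≤ (w : ℝ) ^ m := by
    rw [← mul_pow]
    apply pow_le_pow_left₀ (by positivity)
    linarith
  have h10 : (8 : ℝ) ^ m ≤ 2 * (m : ℝ) ^ 2 := le_of_mul_le_mul_right (h9.trans h8) (by positivity)
  have h11 : 2 * m ^ 2 < 8 ^ m := by
    have ha : m < 2 ^ m := Nat.lt_two_pow_self
    have hb : 2 ≤ 2 ^ m := by
      calc 2 = 2 ^ 1 := by norm_num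
        _ ≤ 2 ^ m := Nat.pow_le_pow_right (by norm_num) hm
    have hc : (8 : ℕ) ^ m = 2 ^ m * (2 ^ m * 2 ^ m) := by
      rw [← mul_pow, ← mul_pow]
      norm_num
    rw [hc]
    have hd : m * m < 2 ^ m * 2 ^ m := Nat.mul_lt_mul'' ha ha
    have he : 2 * m ^ 2 = 2 * (m * m) := by ring
    rw [he]
    calc 2 * (m * m) < 2 * (2 ^ m * 2 ^ m) := by omega
      _ ≤ 2 ^ m * (2 ^ m * 2 ^ m) := Nat.mul_le_mul_right _ hb
  have h12 : 2 * (m : ℝ) ^ 2 < (8 : ℝ) ^ m := by exact_mod_cast h11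
  linarith

end Pool.Agent.W738.Mesh
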