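import Mathlib
import Pool.Agent.W738.Mesh.Lower

set_option autoImplicit false

open Finset

namespace Pool.Agent.W738.Mesh

section
variable {N n : ℕ → ℕ} (h0 : N 0 = 0) (hs : ∀ i, N (i + 1) = N i + (i + 1) * n i) (hn : ∀ i, 0 < n i)
variable {v : ℕ → ℤ}
  (hv : ∀ i q, N i ≤ q → q < N (i + 1) → (2 : ℤ) ^ (4 * (tt N i q) ^ 3) ≤ v q ∧
      v q < (2 : ℤ) ^ (4 * (tt N i q) ^ 3) + 2 ^ (n i))

/-- position -/
def pos (N : ℕ → ℕ) (i M : ℕ) (p : Fin M × Fin (i + 1)) : ℕ := N i + (i + 1) * p.1 + p.2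

lemma pos_inj (N : ℕ → ℕ) (i M : ℕ) : Function.Injective (pos N i M) := by
  intro p p' h
  unfold pos at h
  have h1 : (i + 1) * (p.1 : ℕ) + p.2 = (i + 1) * (p'.1 : ℕ) + p'.2 := by omega
  have h2 : (p.1 : ℕ) = p'.1 := by
    have h3 : ((i + 1) * (p.1 : ℕ) + p.2) / (i + 1) = ((i + 1) * (p'.1 : ℕ) + p'.2) / (i + 1) := by
      rw [h1]
    rw [Nat.mul_add_div (by omega), Nat.mul_add_div (by omega),
      Nat.div_eq_of_lt p.2.2, Nat.div_eq_of_lt p'.2.2] at h3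
    omega
  rw [h2] at h1
  exact Prod.ext (Fin.ext h2) (Fin.ext (by omega))

include hs hv in
lemma pos_bounds (i M : ℕ) (hM : n i = M) (p : Fin M × Fin (i + 1)) :
    (2 : ℤ) ^ (4 * (N (i + 1) + N i + (i + 1) * ((p.1 : ℕ) + 1)) ^ 3) ≤ v (pos N i M p) ∧
    v (pos N i M p) < (2 : ℤ) ^ (4 * (N (i + 1) + N i + (i + 1) * ((p.1 : ℕ) + 1)) ^ 3) + 2 ^ M := by
  have h1 : pos N i M p - N i = (i + 1) * (p.1 : ℕ) + p.2 := by unfold pos; omega
  have h2 : (pos N i M p - N i) / (i + 1) = p.1 := by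
    rw [h1, Nat.mul_add_div (by omega), Nat.div_eq_of_lt p.2.2, add_zero]
  have h3 : pos N i M p < N (i + 1) := by
    rw [hs]
    unfold pos
    have h4 : (i + 1) * ((p.1 : ℕ) + 1) ≤ (i + 1) * n i := Nat.mul_le_mul_left _ (by rw [hM]; exact p.1.2)
    have h5 := p.2.2
    have h6 : (i + 1) * ((p.1 : ℕ) + 1) = (i + 1) * (p.1 : ℕ) + (i + 1) := by ring
    omega
  have h := hv i (pos N i M p) (by unfold pos; omega) h3
  unfold tt at h
  rw [h2, hM] at h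
  exact h

end

lemma not_subgaussian {N n : ℕ → ℕ} (hs : ∀ i, N (i + 1) = N i + (i + 1) * n i)
    (hn : ∀ i, 0 < n i) (hn2 : ∀ i, 2 ∣ n i) {v : ℕ → ℤ}
    (hv : ∀ i q, N i ≤ q → q < N (i + 1) → (2 : ℤ) ^ (4 * (tt N i q) ^ 3) ≤ v q ∧
      v q < (2 : ℤ) ^ (4 * (tt N i q) ^ 3) + 2 ^ (n i)) (hinj : Function.Injective v)
    (C : ℝ) (hC : 0 < C)
    (H : ∀ A : Finset ℤ, (↑A : Set ℤ) ⊆ Set.range v → ∀ a : ℤ → ℂ, ∀ p : ℝ, 2 ≤ p →
      (∫ x in (0:ℝ)..1,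
          ‖∑ j ∈ A, a j * Complex.exp (2 * (Real.pi : ℂ) * Complex.I * (j : ℂ) * (x : ℂ))‖ ^ p) ^ (1 / p)
        ≤ C * Real.sqrt p * Real.sqrt (∑ j ∈ A, ‖a j‖ ^ 2)) : False := by
  obtain ⟨i, hi⟩ := exists_nat_ge (256 * C ^ 2)
  obtain ⟨m, hm⟩ := hn2 i
  have hm1 : 1 ≤ m := by have := hn i; omega
  set φ : Fin (2 * m) × Fin (i + 1) → ℤ := fun p => v (pos N i (2 * m) p) with hφ
  have hφinj : Function.Injective φ := hinj.comp (pos_inj N i (2 * m))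
  have hb := pos_bounds hs hv i (2 * m) hm
  have hlow := cluster_lower' (i + 1) m hm1
    (fun j => (2 : ℤ) ^ (4 * (N (i + 1) + N i + (i + 1) * ((j : ℕ) + 1)) ^ 3)) φ hb
  set I := ∫ x in (0:ℝ)..1, ‖∑ a, ee (φ a) x‖ ^ (2 * m) with hI
  have hI0 : 0 ≤ I := by
    apply intervalIntegral.integral_nonneg (by norm_num)
    intro x _
    positivity
  have hA := H (univ.image φ) (by
    intro z hz
    rw [coe_image] at hz
    obtain ⟨p, _, rfl⟩ := hz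
    exact ⟨_, rfl⟩) (fun _ => 1) ((2 * m : ℕ) : ℝ) (by
      have : 2 ≤ 2 * m := by omega
      exact_mod_cast this)
  have hint : (∫ x in (0:ℝ)..1,
      ‖∑ j ∈ univ.image φ, (fun _ => (1 : ℂ)) j * Complex.exp (2 * (Real.pi : ℂ) * Complex.I * (j : ℂ) * (x : ℂ))‖
        ^ ((2 * m : ℕ) : ℝ)) = I := by
    rw [hI]
    congr 1
    funext x
    rw [Real.rpow_natCast, Finset.sum_image (fun _ _ _ _ h => hφinj h)]
    simp only [one_mul]
    rfl
  rw [hint] at hA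
  have hcard : (∑ j ∈ univ.image φ, ‖(fun _ => (1 : ℂ)) j‖ ^ 2 : ℝ) = (2 * m : ℕ) * ((i + 1 : ℕ) : ℝ) := by
    simp only [norm_one, one_pow, sum_const, nsmul_eq_mul, mul_one]
    rw [Finset.card_image_of_injective _ hφinj, Finset.card_univ, Fintype.card_prod, Fintype.card_fin,
      Fintype.card_fin]
    push_cast
    ring
  rw [hcard] at hA
  have h2m : ((2 * m : ℕ) : ℝ) ≠ 0 := by
    have : 2 * m ≠ 0 := by omega
    exact_mod_cast this
  have hup : I ≤ (C ^ 2 * (2 * m) * ((2 * m) * ((i + 1 : ℕ) : ℝ))) ^ m := by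
    have h1 : (I ^ (1 / ((2 * m : ℕ) : ℝ))) ^ (2 * m) = I := by
      rw [← Real.rpow_natCast (I ^ (1 / ((2 * m : ℕ) : ℝ))) (2 * m), ← Real.rpow_mul hI0,
        one_div_mul_cancel h2m, Real.rpow_one]
    have h2 := pow_le_pow_left₀ (Real.rpow_nonneg hI0 _) hA (2 * m)
    rw [h1] at h2
    refine h2.trans (le_of_eq ?_)
    rw [pow_mul, mul_pow, mul_pow C, Real.sq_sqrt (by positivity), Real.sq_sqrt (by positivity)]
    push_cast
    ring
  exact numeric_contra (i + 1) m hm1 C I hC (by push_cast; linarith) hlow hup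

end Pool.Agent.W738.Mesh
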